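import Pool.Agent.Helper5.Vass.Bound

set_option autoImplicit false

/-!
# Dasbach's formula for `F_3` is false

The coefficient of `t ^ 20` in the proposed rational function is `38`, but `β 23 20` is at least
`39`.
-/

namespace Pool.Agent.Results.MP_6391b1_gt.DasbachF3

open PowerSeries Pool.Agent.Helper5.Vass

/-- The formula `F_3(t) = (1 + t ^ 2 + t ^ 8 - t ^ 10) / ((1 - t ^ 2) (1 - t ^ 4) (1 - t ^ 6)
(1 - t ^ 10))` is false. -/
theorem result :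
    F 3 ≠ (1 + X ^ 2 + X ^ 8 - X ^ 10) *
      ((1 - X ^ 2) * (1 - X ^ 4) * (1 - X ^ 6) * (1 - X ^ 10))⁻¹ := by
  intro h
  set D : PowerSeries ℚ := (1 - X ^ 2) * (1 - X ^ 4) * (1 - X ^ 6) * (1 - X ^ 10) with hD
  have hc : constantCoeff D ≠ 0 := by
    simp [hD]
  have h1 : F 3 * D = 1 + X ^ 2 + X ^ 8 - X ^ 10 := by
    rw [h, mul_assoc, PowerSeries.inv_mul_cancel D hc, mul_one]
  set P : PowerSeries ℚ := 1 + X ^ 2 + 2 * X ^ 4 + 3 * X ^ 6 + 4 * X ^ 8 + 6 * X ^ 10 +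
    8 * X ^ 12 + 10 * X ^ 14 + 13 * X ^ 16 + 16 * X ^ 18 + 20 * X ^ 20 with hP
  set R : PowerSeries ℚ := -24 - 5 * X ^ 2 + 19 * X ^ 4 + 23 * X ^ 6 + 3 * X ^ 8 + 4 * X ^ 10 +
    5 * X ^ 12 - 19 * X ^ 14 - 23 * X ^ 16 - 4 * X ^ 18 + 20 * X ^ 20 with hR
  set Q : PowerSeries ℚ := 1 + 2 * X ^ 2 + 3 * X ^ 4 + 5 * X ^ 6 + 8 * X ^ 8 + 10 * X ^ 10 +
    15 * X ^ 12 + 19 * X ^ 14 + 24 * X ^ 16 + 31 * X ^ 18 with hQ
  set S : PowerSeries ℚ := 22 + 3 * X ^ 2 + 3 * X ^ 4 + 4 * X ^ 6 - 20 * X ^ 8 with hS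
  have h2 : D * P = 1 + X ^ 22 * R := by
    rw [hD, hP, hR]
    ring
  have h3 : (1 + X ^ 2 + X ^ 8 - X ^ 10) * P = Q + 38 * X ^ 20 + X ^ 22 * S := by
    rw [hP, hQ, hS]
    ring
  have h4 : F 3 + X ^ 22 * (F 3 * R) = Q + 38 * X ^ 20 + X ^ 22 * S := by
    rw [← h3, ← h1, mul_assoc (F 3) D P, h2]
    ring
  have h5 := congrArg (coeff 20) h4
  have e1 : ∀ A : PowerSeries ℚ, coeff 20 (X ^ 22 * A) = 0 := by
    intro A
    rw [coeff_X_pow_mul', if_neg (by norm_num)]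
  have e2 : coeff 20 (F 3) = (β 23 20 : ℚ) := by
    unfold F
    rw [coeff_mk]
  have hm : ∀ (c : ℕ) [c.AtLeastTwo] (k : ℕ), k ≠ 20 →
      coeff 20 ((OfNat.ofNat c : PowerSeries ℚ) * X ^ k) = 0 := by
    intro c _ k hk
    rw [← map_ofNat (C (R := ℚ)) c, coeff_C_mul, coeff_X_pow, if_neg (Ne.symm hk), mul_zero]
  have e3 : coeff 20 Q = 0 := by
    rw [hQ]
    simp only [map_add]
    rw [hm 2 2 (by norm_num), hm 3 4 (by norm_num), hm 5 6 (by norm_num), hm 8 8 (by norm_num),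
      hm 10 10 (by norm_num), hm 15 12 (by norm_num), hm 19 14 (by norm_num),
      hm 24 16 (by norm_num), hm 31 18 (by norm_num), coeff_one, if_neg (by norm_num)]
    norm_num
  have e4 : coeff 20 (38 * X ^ 20 : PowerSeries ℚ) = 38 := by
    rw [← map_ofNat (C (R := ℚ)) 38, coeff_C_mul, coeff_X_pow_self, mul_one]
  rw [map_add, map_add, map_add, e1, e1, e2, e3, e4] at h5
  have h6 : (β 23 20 : ℚ) = 38 := by linarith
  have h7 : β 23 20 = 38 := by exact_mod_cast h6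
  have h8 := beta_ge
  omega

end Pool.Agent.Results.MP_6391b1_gt.DasbachF3
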